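import Pool.Agent.Helper61.ZD.Asm5

/-!
# Rational points of 100% of the everywhere locally soluble hypersurfaces in products of projective
spaces are not on hypersurfaces of bounded degree

Let `n i ≥ 1` and `d i ≥ 2` for all `i < k`, `d i ≤ n i` for at least one `i`, and `∑ n i ≥ 3`. These
are all the multidegrees with `d i ≥ 2` for which the smooth hypersurfaces of multidegree
`(d 0, d 1, …)` in `ℙ^(n 0) × ℙ^(n 1) × …` are rationally connected, of dimension at least two. Among the integral forms `f` of
this multidegree with coefficients bounded by `H` whose hypersurface `X_f` has points over the real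
numbers and over all the `p`-adic fields, a proportion tending to `1` as `H → ∞` has the following
property: no polynomial of degree at most `D(H)`, with real coefficients and not divisible by `f`,
vanishes at all the rational points of `X_f`. Here `D(H)` is a function which tends to infinity and
depends on the multidegree only.

For instance this holds for the conic bundles over `ℙ²` which are hypersurfaces of bidegree `(2, e)`
in `ℙ² × ℙ²`, for all `e ≥ 2`, and for the conic bundle surfaces of bidegree `(2, e)` in `ℙ² × ℙ¹`.

Proof. Weak approximation with a precision which tends to infinity with `H` is known for the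
rational points of almost all `X_f` (library). A compactness argument in the space of the real forms
shows that approximation at the real place is sufficient: if irreducible indefinite real forms
`f_j` converge to such a form `f`, and if polynomials `G_j` of bounded degree, orthogonal to the
multiples of `f_j`, vanish at points which are closer and closer to each real zero of `f_j`, then
their limit vanishes at all the changes of sign of `f`, hence is divisible by `f`, a contradiction.
The forms which are close to reducible forms or to the boundary of the cone of the nonnegative forms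
are few, and the other definite forms have no real zeros.
-/

set_option autoImplicit false

namespace Pool.Agent.Results.MP_b62148_ag.RandomDegreeDensity

/-- The forms of multidegree `d` in `k` blocks of variables, the block `i` having `n i + 1`
variables, whose coefficients are integers of absolute value at most `H`. -/
def Forms {k : ℕ} (n d : Fin k → ℕ) (H : ℕ) :
    Set (MvPolynomial (Σ i : Fin k, Fin (n i + 1)) ℤ) :=
  {f | (∀ s ∈ f.support, ∀ i : Fin k, ∑ j : Fin (n i + 1), s ⟨i, j⟩ = d i) ∧
    ∀ s, |f.coeff s| ≤ (H : ℤ)}

/-- `x` represents a point over the field `L` of the hypersurface `X_f`: `f = 0` in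
`ℙ^(n 0) × ℙ^(n 1) × …`: all its blocks are different from zero and `f(x) = 0`. -/
def IsPoint {k : ℕ} {n : Fin k → ℕ} {L : Type} [Field L]
    (f : MvPolynomial (Σ i : Fin k, Fin (n i + 1)) ℤ)
    (x : (Σ i : Fin k, Fin (n i + 1)) → L) : Prop :=
  (∀ i : Fin k, (fun j : Fin (n i + 1) => x ⟨i, j⟩) ≠ 0) ∧ MvPolynomial.aeval x f = 0

/-- The hypersurface `X_f` has points over the real numbers and over all the `p`-adic fields. -/
def LocallySoluble {k : ℕ} {n : Fin k → ℕ}
    (f : MvPolynomial (Σ i : Fin k, Fin (n i + 1)) ℤ) : Prop :=
  (∃ y : (Σ i : Fin k, Fin (n i + 1)) → ℝ, IsPoint f y) ∧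
    ∀ (p : ℕ) [Fact p.Prime], ∃ z : (Σ i : Fin k, Fin (n i + 1)) → ℚ_[p], IsPoint f z

/-- Every polynomial of degree at most `D`, with real coefficients, which vanishes at all the
rational points of `X_f` is divisible by `f`. -/
def DenseUpTo {k : ℕ} {n : Fin k → ℕ} (D : ℕ)
    (f : MvPolynomial (Σ i : Fin k, Fin (n i + 1)) ℤ) : Prop :=
  ∀ G : MvPolynomial (Σ i : Fin k, Fin (n i + 1)) ℝ, G.totalDegree ≤ D →
    (∀ x : (Σ i : Fin k, Fin (n i + 1)) → ℚ, IsPoint f x →
      MvPolynomial.eval (fun a => (x a : ℝ)) G = 0) →
    MvPolynomial.map (Int.castRingHom ℝ) f ∣ G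

/-- For 100% of the everywhere locally soluble hypersurfaces `X_f` of multidegree `d` in
`ℙ^(n 0) × ℙ^(n 1) × …` with coefficients bounded by `H`, no polynomial of degree at most `D H` which
is not divisible by `f` vanishes at all the rational points of `X_f`, and `D H` tends to infinity. -/
theorem result (k : ℕ) (n d : Fin k → ℕ) (hn : ∀ i, 1 ≤ n i) (hd : ∀ i, 2 ≤ d i)
    (hrc : ∃ i, d i ≤ n i) (hdim : 3 ≤ ∑ i, n i) :
    ∃ D : ℕ → ℕ, Filter.Tendsto D Filter.atTop Filter.atTop ∧
    Filter.Tendsto (fun H : ℕ =>
      (({f | f ∈ Forms n d H ∧ LocallySoluble f ∧ DenseUpTo (D H) f} : Set _).ncard : ℝ) /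
        (({f | f ∈ Forms n d H ∧ LocallySoluble f} : Set _).ncard : ℝ))
      Filter.atTop (nhds 1) := by
  obtain ⟨D, hD, h⟩ := Pool.ZD.final n d hn hd hrc hdim
  refine ⟨D, hD, h.congr (fun H => ?_)⟩
  have he : ∀ f : MvPolynomial (Σ i : Fin k, Fin (n i + 1)) ℤ,
      Pool.Agent.Y716.M.ElsB f ↔ LocallySoluble f := fun f => Iff.rfl
  have hu : ∀ (D : ℕ) (f : MvPolynomial (Σ i : Fin k, Fin (n i + 1)) ℤ),
      Pool.ZD.DegDense D f ↔ DenseUpTo D f := by
    intro D f
    constructor
    · intro h G hG hv
      exact h G hG fun x h1 h2 => hv x ⟨h1, h2⟩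
    · intro h G hG hv
      exact h G hG fun x hx => hv x hx.1 hx.2
  congr 2
  · congr 1
    ext f
    simp only [Set.mem_setOf_eq, Forms, hu, he]

end Pool.Agent.Results.MP_b62148_ag.RandomDegreeDensity
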